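import Pool.Agent.Helper23.KU.Bdry

/-!
# KR: if two second functions are different, their orders differ by more than the order of `f`
-/

set_option autoImplicit false

namespace Pool.Agent.Helper23.KU

open Polynomial Filter Topology Metric MeasureTheory Set
open Pool.Agent.Helper23.KB (Sph Dom KF Ext sq area_series ms_series kf_le kf_dn kf_nonneg int_cont)

/-- an analytic function that is not identically zero has isolated zeros in the disc -/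
theorem ne_near {g : ℂ → ℂ} (hg : DifferentiableOn ℂ g (ball 0 1))
    (hg0 : ∃ z ∈ ball (0 : ℂ) 1, g z ≠ 0) {z : ℂ} (hz : z ∈ ball (0 : ℂ) 1) :
    ∀ᶠ y in 𝓝[≠] z, g y ≠ 0 := by
  have hga : AnalyticOnNhd ℂ g (ball 0 1) := hg.analyticOnNhd isOpen_ball
  rcases (hga z hz).eventually_eq_zero_or_eventually_ne_zero with h3 | h3
  · exfalso
    obtain ⟨w, hw, hwv⟩ := hg0
    exact hwv (hga.eqOn_zero_of_preconnected_of_eventuallyEq_zero
      (convex_ball (0 : ℂ) 1).isPreconnected hz h3 hw)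
  · exact h3

/-- the quotient of two analytic functions with the right orders is analytic -/
theorem quot_an {u g : ℂ → ℂ} (hu : DifferentiableOn ℂ u (ball 0 1))
    (hg : DifferentiableOn ℂ g (ball 0 1)) (hg0 : ∃ z ∈ ball (0 : ℂ) 1, g z ≠ 0)
    (ho : ∀ z ∈ ball (0 : ℂ) 1, analyticOrderAt g z ≤ analyticOrderAt u z) :
    ∃ P : ℂ → ℂ, DifferentiableOn ℂ P (ball 0 1) ∧ ∀ z ∈ ball (0 : ℂ) 1, u z = g z * P z := by
  have hua : AnalyticOnNhd ℂ u (ball 0 1) := hu.analyticOnNhd isOpen_ball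
  have hga : AnalyticOnNhd ℂ g (ball 0 1) := hg.analyticOnNhd isOpen_ball
  have key : ∀ z₀ ∈ ball (0 : ℂ) 1, ∃ h : ℂ → ℂ, AnalyticAt ℂ h z₀ ∧
      (∀ᶠ z in 𝓝 z₀, limUnder (𝓝[≠] z) (fun y => u y / g y) = h z) ∧
      u z₀ = g z₀ * h z₀ := by
    intro z₀ hz₀
    have hne := ne_near hg hg0 hz₀
    have htop : analyticOrderAt g z₀ ≠ ⊤ := by
      intro h1
      rw [analyticOrderAt_eq_top] at h1
      have h2 := (h1.filter_mono nhdsWithin_le_nhds : ∀ᶠ y in 𝓝[≠] z₀, g y = 0)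
      obtain ⟨y, hy1, hy2⟩ := (h2.and hne).exists
      exact hy2 hy1
    obtain ⟨n, hn⟩ := ENat.ne_top_iff_exists.1 htop
    obtain ⟨g', hg', hg'0, hge⟩ := ((hga z₀ hz₀).analyticOrderAt_eq_natCast).1 hn.symm
    obtain ⟨u', hu', hue⟩ := (natCast_le_analyticOrderAt (hua z₀ hz₀)).1
      (hn.le.trans (ho z₀ hz₀))
    have hev : ∀ᶠ z in 𝓝 z₀, AnalyticAt ℂ (fun y => u' y / g' y) z ∧
        (u z = (z - z₀) ^ n • u' z ∧ (g z = (z - z₀) ^ n • g' z ∧ g' z ≠ 0)) :=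
      ((hu'.div hg' hg'0).eventually_analyticAt).and
        (hue.and (hge.and (hg'.continuousAt.eventually_ne hg'0)))
    refine ⟨fun y => u' y / g' y, hu'.div hg' hg'0, ?_, ?_⟩
    · filter_upwards [hev.eventually_nhds] with z hz
      have h1 : Tendsto (fun y => u' y / g' y) (𝓝[≠] z) (𝓝 (u' z / g' z)) :=
        (hz.self_of_nhds.1.continuousAt.tendsto).mono_left nhdsWithin_le_nhds
      refine Tendsto.limUnder_eq (h1.congr' ?_)
      have h2 : ∀ᶠ y in 𝓝[≠] z, y ≠ z₀ := by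
        by_cases h3 : z = z₀
        · rw [h3]
          exact self_mem_nhdsWithin
        · exact (eventually_ne_nhds h3).filter_mono nhdsWithin_le_nhds
      filter_upwards [hz.filter_mono nhdsWithin_le_nhds, h2] with y hy hy2
      obtain ⟨_, h4, h5, h6⟩ := hy
      have h7 : (y - z₀) ^ n ≠ 0 := pow_ne_zero _ (sub_ne_zero.2 hy2)
      rw [h4, h5, smul_eq_mul, smul_eq_mul, mul_div_mul_left _ _ h7]
    · obtain ⟨_, h4, h5, h6⟩ := hev.self_of_nhds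
      rw [h4, h5, smul_eq_mul, smul_eq_mul]
      field_simp
  refine ⟨fun z => limUnder (𝓝[≠] z) (fun y => u y / g y), fun z hz => ?_, fun z hz => ?_⟩
  · obtain ⟨h, hh, he, _⟩ := key z hz
    exact ((hh.congr (he.mono fun y hy => hy.symm)).differentiableAt).differentiableWithinAt
  · obtain ⟨h, hh, he, h1⟩ := key z hz
    exact h1.trans (congrArg (fun x => g z * x) he.self_of_nhds.symm)

/-- the radial approach from outside -/
theorem radial {z : ℂ} {c : ℝ} (h0 : 0 < c) (hz : c ≤ ‖z‖) (hz1 : ‖z‖ < 1) :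
    Tendsto (fun t : ℝ => (1 + (t : ℂ)) * z) (𝓝[>] 0) (𝓝[≠] z) ∧
      ∀ᶠ t : ℝ in 𝓝[>] 0, c ≤ ‖(1 + (t : ℂ)) * z‖ ∧ ‖(1 + (t : ℂ)) * z‖ < 1 := by
  have hz0 : z ≠ 0 := norm_pos_iff.1 (h0.trans_le hz)
  have hc : Tendsto (fun t : ℝ => (1 + (t : ℂ)) * z) (𝓝[>] 0) (𝓝 z) := by
    have h1 : Continuous fun t : ℝ => (1 + (t : ℂ)) * z := by fun_prop
    have h2 := h1.tendsto 0
    simp only [Complex.ofReal_zero, add_zero, one_mul] at h2
    exact h2.mono_left nhdsWithin_le_nhds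
  have hpos : ∀ᶠ t : ℝ in 𝓝[>] 0, 0 < t := self_mem_nhdsWithin
  refine ⟨tendsto_nhdsWithin_iff.2 ⟨hc, ?_⟩, ?_⟩
  · filter_upwards [hpos] with t ht
    rw [mem_compl_iff, mem_singleton_iff]
    intro h1
    have h2 : (t : ℂ) * z = 0 := by linear_combination h1
    rcases mul_eq_zero.1 h2 with h3 | h3
    · exact ht.ne' (Complex.ofReal_eq_zero.1 h3)
    · exact hz0 h3
  · have h1 := (hc.norm).eventually (gt_mem_nhds hz1)
    filter_upwards [hpos, h1] with t ht ht1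
    refine ⟨?_, ht1⟩
    have h2 : ‖(1 + (t : ℂ))‖ = 1 + t := by
      rw [show (1 + (t : ℂ)) = ((1 + t : ℝ) : ℂ) by push_cast; ring, Complex.norm_real,
        Real.norm_eq_abs, abs_of_pos (by linarith)]
    rw [norm_mul, h2]
    nlinarith [norm_nonneg z]

/-- cancellation of a factor in an inequality on the annulus -/
theorem cancel_dom {c F : ℝ} (h0 : 0 < c) {g P v : ℂ → ℂ} (hg : DifferentiableOn ℂ g (ball 0 1))
    (hg0 : ∃ z ∈ ball (0 : ℂ) 1, g z ≠ 0) (hP : ContinuousOn P (ball 0 1))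
    (hv : ContinuousOn v (ball 0 1))
    (h : ∀ z : ℂ, c ≤ ‖z‖ → ‖z‖ < 1 → ‖g z‖ * ‖P z‖ ≤ ‖g z‖ * (F * ‖v z‖)) :
    ∀ z : ℂ, c ≤ ‖z‖ → ‖z‖ < 1 → ‖P z‖ ≤ F * ‖v z‖ := by
  intro z hz hz1
  have hzb : z ∈ ball (0 : ℂ) 1 := mem_ball_zero_iff.2 hz1
  obtain ⟨h1, h2⟩ := radial h0 hz hz1
  have h3 := h1.eventually (ne_near hg hg0 hzb)
  have hPc : Tendsto (fun t : ℝ => ‖P ((1 + (t : ℂ)) * z)‖) (𝓝[>] 0) (𝓝 ‖P z‖) :=
    ((hP.continuousAt (isOpen_ball.mem_nhds hzb)).norm.tendsto.mono_left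
      nhdsWithin_le_nhds).comp h1
  have hvc : Tendsto (fun t : ℝ => F * ‖v ((1 + (t : ℂ)) * z)‖) (𝓝[>] 0) (𝓝 (F * ‖v z‖)) :=
    (((hv.continuousAt (isOpen_ball.mem_nhds hzb)).norm.tendsto.mono_left
      nhdsWithin_le_nhds).comp h1).const_mul F
  refine le_of_tendsto_of_tendsto hPc hvc ?_
  filter_upwards [h2, h3] with t ht ht2
  exact le_of_mul_le_mul_left (h _ ht.1 ht.2) (norm_pos_iff.2 ht2)

/-- on the annulus the order of `g` is at most the order of `f` -/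
theorem ord_le_of_dom {c F : ℝ} (h0 : 0 < c) {f g : ℂ → ℂ}
    (hf : DifferentiableOn ℂ f (ball 0 1)) (hg : DifferentiableOn ℂ g (ball 0 1))
    (h : ∀ z : ℂ, c ≤ ‖z‖ → ‖z‖ < 1 → ‖f z‖ ≤ F * ‖g z‖) {w : ℂ} (hw : c ≤ ‖w‖)
    (hw1 : ‖w‖ < 1) : analyticOrderAt g w ≤ analyticOrderAt f w := by
  have hwb : w ∈ ball (0 : ℂ) 1 := mem_ball_zero_iff.2 hw1
  have hfa := (hf.analyticOnNhd isOpen_ball) w hwb
  have hga := (hg.analyticOnNhd isOpen_ball) w hwb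
  by_contra hlt
  push Not at hlt
  obtain ⟨n, hn⟩ := ENat.ne_top_iff_exists.1 (ne_top_of_lt hlt)
  obtain ⟨f', hf', hf'0, hfe⟩ := (hfa.analyticOrderAt_eq_natCast).1 hn.symm
  have hle : ((n + 1 : ℕ) : ℕ∞) ≤ analyticOrderAt g w := by
    rw [← hn] at hlt
    push_cast
    exact Order.add_one_le_of_lt hlt
  obtain ⟨g', hg', hge⟩ := (natCast_le_analyticOrderAt hga).1 hle
  obtain ⟨h1, h2⟩ := radial h0 hw hw1
  have h1' : Tendsto (fun t : ℝ => (1 + (t : ℂ)) * w) (𝓝[>] 0) (𝓝 w) :=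
    h1.mono_right nhdsWithin_le_nhds
  have hA : Tendsto (fun t : ℝ => ‖f' ((1 + (t : ℂ)) * w)‖) (𝓝[>] 0) (𝓝 ‖f' w‖) :=
    (hf'.continuousAt.norm.tendsto).comp h1'
  have hB : Tendsto (fun t : ℝ => F * (‖(1 + (t : ℂ)) * w - w‖ * ‖g' ((1 + (t : ℂ)) * w)‖))
      (𝓝[>] 0) (𝓝 (F * (‖w - w‖ * ‖g' w‖))) :=
    (((h1'.sub_const w).norm).mul ((hg'.continuousAt.norm.tendsto).comp h1')).const_mul F
  have h3 := le_of_tendsto_of_tendsto hA hB (by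
    filter_upwards [h2, h1'.eventually hfe, h1'.eventually hge,
      h1.eventually (self_mem_nhdsWithin : {w}ᶜ ∈ 𝓝[≠] w)] with t ht hft hgt htw
    have h4 := h _ ht.1 ht.2
    have htw' : (1 + (t : ℂ)) * w - w ≠ 0 := sub_ne_zero.2 htw
    rw [hft, hgt, smul_eq_mul, smul_eq_mul, norm_mul, norm_mul, norm_pow, norm_pow,
      pow_succ] at h4
    have h5 : 0 < ‖(1 + (t : ℂ)) * w - w‖ ^ n := pow_pos (norm_pos_iff.2 htw') n
    refine le_of_mul_le_mul_left ?_ h5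
    calc ‖(1 + (t : ℂ)) * w - w‖ ^ n * ‖f' ((1 + (t : ℂ)) * w)‖
        ≤ F * (‖(1 + (t : ℂ)) * w - w‖ ^ n * ‖(1 + (t : ℂ)) * w - w‖ *
          ‖g' ((1 + (t : ℂ)) * w)‖) := h4
      _ = ‖(1 + (t : ℂ)) * w - w‖ ^ n *
          (F * (‖(1 + (t : ℂ)) * w - w‖ * ‖g' ((1 + (t : ℂ)) * w)‖)) := by ring)
  rw [sub_self, norm_zero, zero_mul, mul_zero] at h3
  exact hf'0 (norm_le_zero_iff.1 h3)

/-- a function bounded by a square integrable function on the annulus is square integrable -/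
theorem int_of_dom {c F : ℝ} {P v : ℂ → ℂ} (hP : ContinuousOn P (ball 0 1)) (h1 : c < 1)
    (hvi : IntegrableOn (fun z => ‖v z‖ ^ 2) (ball 0 1))
    (h : ∀ z : ℂ, c ≤ ‖z‖ → ‖z‖ < 1 → ‖P z‖ ≤ F * ‖v z‖) :
    IntegrableOn (fun z => ‖P z‖ ^ 2) (ball 0 1) := by
  have hsub : closedBall (0 : ℂ) c ⊆ ball 0 1 := closedBall_subset_ball h1
  have hc : ContinuousOn (fun z => ‖P z‖ ^ 2) (ball (0 : ℂ) 1) := hP.norm.pow 2
  have hA : IntegrableOn (fun z => ‖P z‖ ^ 2) (closedBall (0 : ℂ) c) :=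
    (hc.mono hsub).integrableOn_compact (isCompact_closedBall 0 c)
  have hB : IntegrableOn (fun z => ‖P z‖ ^ 2) (ball (0 : ℂ) 1 \ closedBall 0 c) := by
    refine Integrable.mono' ((hvi.mono_set sdiff_subset).const_mul (F ^ 2)) ?_ ?_
    · exact (hc.mono sdiff_subset).aestronglyMeasurable
        (measurableSet_ball.diff isClosed_closedBall.measurableSet)
    · refine (ae_restrict_iff' (measurableSet_ball.diff
        isClosed_closedBall.measurableSet)).2 (Eventually.of_forall fun z hz => ?_)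
      have hz1 : ‖z‖ < 1 := mem_ball_zero_iff.1 hz.1
      have hz2 : c < ‖z‖ := by
        have := hz.2
        rw [mem_closedBall_zero_iff, not_le] at this
        exact this
      rw [Real.norm_eq_abs, abs_of_nonneg (by positivity), ← mul_pow]
      exact pow_le_pow_left₀ (norm_nonneg _) (h z hz2.le hz1) 2
  refine (hA.union hB).mono_set fun z hz => ?_
  by_cases hzc : z ∈ closedBall (0 : ℂ) c
  · exact Or.inl hzc
  · exact Or.inr ⟨hz, hzc⟩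

/-- an admissible first function has norm at most one -/
theorem sq_le_one_of_dom {c : ℝ} (h0 : 0 < c) (h1 : c < 1) {P v : ℂ → ℂ}
    (hP : DifferentiableOn ℂ P (ball 0 1)) (hv : Sph v)
    (h : ∀ z : ℂ, c ≤ ‖z‖ → ‖z‖ < 1 → ‖P z‖ ≤ KF c * ‖v z‖) :
    IntegrableOn (fun z => ‖P z‖ ^ 2) (ball 0 1) ∧ sq P 1 ≤ 1 := by
  have hi := int_of_dom hP.continuousOn h1 hv.2.1 h
  refine ⟨hi, ?_⟩
  have h2 := dom_norm h0 h1 (kf_nonneg c) hP hi hv.1 hv.2.1 h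
  have h3 : sq v 1 = 1 := hv.2.2
  rw [h3, mul_one] at h2
  have h4 : 0 < KF c ^ 2 := by
    have := kf_pos' h0 h1
    positivity
  nlinarith

/-- two analytic functions with the same modulus -/
theorem const_of_norm {g₁ g₂ : ℂ → ℂ} (h₁ : DifferentiableOn ℂ g₁ (ball 0 1))
    (h₂ : DifferentiableOn ℂ g₂ (ball 0 1)) {z₀ : ℂ} (hz₀ : z₀ ∈ ball (0 : ℂ) 1)
    (hg : g₁ z₀ ≠ 0) (h : ∀ᶠ z in 𝓝 z₀, ‖g₂ z‖ = ‖g₁ z‖) :
    ∃ κ : ℂ, ‖κ‖ = 1 ∧ ∀ z ∈ ball (0 : ℂ) 1, g₂ z = κ * g₁ z := by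
  have ha₁ : AnalyticOnNhd ℂ g₁ (ball 0 1) := h₁.analyticOnNhd isOpen_ball
  have ha₂ : AnalyticOnNhd ℂ g₂ (ball 0 1) := h₂.analyticOnNhd isOpen_ball
  have hne : ∀ᶠ z in 𝓝 z₀, g₁ z ≠ 0 := (ha₁ z₀ hz₀).continuousAt.eventually_ne hg
  have hball : ∀ᶠ z in 𝓝 z₀, z ∈ ball (0 : ℂ) 1 := isOpen_ball.mem_nhds hz₀
  have hn : ∀ᶠ z in 𝓝 z₀, ‖g₂ z / g₁ z‖ = 1 := by
    filter_upwards [h, hne] with z hz hz2
    rw [norm_div, hz, div_self (norm_ne_zero_iff.2 hz2)]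
  have hd : ∀ᶠ z in 𝓝 z₀, DifferentiableAt ℂ (fun z => g₂ z / g₁ z) z := by
    filter_upwards [hball, hne] with z hz hz2
    exact ((ha₂ z hz).differentiableAt).div ((ha₁ z hz).differentiableAt) hz2
  have hmax : IsLocalMax (norm ∘ fun z => g₂ z / g₁ z) z₀ := by
    filter_upwards [hn] with z hz
    simp only [Function.comp_apply]
    rw [hz, hn.self_of_nhds]
  have hk := Complex.eventually_eq_of_isLocalMax_norm hd hmax
  refine ⟨g₂ z₀ / g₁ z₀, hn.self_of_nhds, ?_⟩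
  have he : g₂ =ᶠ[𝓝 z₀] fun z => g₂ z₀ / g₁ z₀ * g₁ z := by
    filter_upwards [hk, hne] with z hz hz2
    rw [← hz, div_mul_cancel₀ _ hz2]
  exact ha₂.eqOn_of_preconnected_of_eventuallyEq (analyticOnNhd_const.mul ha₁)
    (convex_ball (0 : ℂ) 1).isPreconnected hz₀ he

/-- If the second functions of two extremal pairs with the same first function `f` are different,
then at some point of `‖w‖ < c` their orders differ by more than the order of `f`. -/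
theorem bad_zero {c : ℝ} (h0 : 0 < c) (h1 : c < 1) (_hF : KF c < 1) {f g₁ g₂ : ℂ → ℂ}
    (E₁ : Ext c f g₁) (E₂ : Ext c f g₂) :
    (∃ κ : ℂ, ‖κ‖ = 1 ∧ ∀ z ∈ ball (0 : ℂ) 1, g₂ z = κ * g₁ z) ∨
    ∃ w : ℂ, ‖w‖ < c ∧ (analyticOrderAt f w + analyticOrderAt g₂ w < analyticOrderAt g₁ w ∨
      analyticOrderAt f w + analyticOrderAt g₁ w < analyticOrderAt g₂ w) := by
  by_cases hbad : ∃ w : ℂ, ‖w‖ < c ∧
      (analyticOrderAt f w + analyticOrderAt g₂ w < analyticOrderAt g₁ w ∨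
        analyticOrderAt f w + analyticOrderAt g₁ w < analyticOrderAt g₂ w)
  · exact Or.inr hbad
  push Not at hbad
  left
  have hf := E₁.1.1
  have hg₁ := E₁.2.1.1
  have hg₂ := E₂.2.1.1
  have hfa : AnalyticOnNhd ℂ f (ball 0 1) := hf.analyticOnNhd isOpen_ball
  have ha₁ : AnalyticOnNhd ℂ g₁ (ball 0 1) := hg₁.analyticOnNhd isOpen_ball
  have ha₂ : AnalyticOnNhd ℂ g₂ (ball 0 1) := hg₂.analyticOnNhd isOpen_ball
  have hn₁ := sph_ne E₁.2.1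
  have hn₂ := sph_ne E₂.2.1
  have hnf := sph_ne E₁.1
  have o₁ : ∀ z ∈ ball (0 : ℂ) 1,
      analyticOrderAt g₁ z ≤ analyticOrderAt (fun y => f y * g₂ y) z := by
    intro z hz
    have h2 : analyticOrderAt (fun y => f y * g₂ y) z =
        analyticOrderAt f z + analyticOrderAt g₂ z := analyticOrderAt_mul (hfa z hz) (ha₂ z hz)
    rw [h2]
    rcases lt_or_ge ‖z‖ c with hc | hc
    · exact (hbad z hc).1
    · exact (ord_le_of_dom h0 hf hg₁ E₁.2.2 hc (mem_ball_zero_iff.1 hz)).trans le_self_add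
  have o₂ : ∀ z ∈ ball (0 : ℂ) 1,
      analyticOrderAt g₂ z ≤ analyticOrderAt (fun y => f y * g₁ y) z := by
    intro z hz
    have h2 : analyticOrderAt (fun y => f y * g₁ y) z =
        analyticOrderAt f z + analyticOrderAt g₁ z := analyticOrderAt_mul (hfa z hz) (ha₁ z hz)
    rw [h2]
    rcases lt_or_ge ‖z‖ c with hc | hc
    · exact (hbad z hc).2
    · exact (ord_le_of_dom h0 hf hg₂ E₂.2.2 hc (mem_ball_zero_iff.1 hz)).trans le_self_add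
  obtain ⟨P, hP, hPe⟩ := quot_an (hf.mul hg₂) hg₁ hn₁ o₁
  obtain ⟨Q, hQ, hQe⟩ := quot_an (hf.mul hg₁) hg₂ hn₂ o₂
  have hPe' : ∀ z ∈ ball (0 : ℂ) 1, f z * g₂ z = g₁ z * P z := hPe
  have hQe' : ∀ z ∈ ball (0 : ℂ) 1, f z * g₁ z = g₂ z * Q z := hQe
  have dP : ∀ z : ℂ, c ≤ ‖z‖ → ‖z‖ < 1 → ‖P z‖ ≤ KF c * ‖g₂ z‖ := by
    refine cancel_dom h0 hg₁ hn₁ hP.continuousOn hg₂.continuousOn fun z hz hz1 => ?_
    rw [← norm_mul, ← hPe' z (mem_ball_zero_iff.2 hz1), norm_mul]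
    calc ‖f z‖ * ‖g₂ z‖ ≤ KF c * ‖g₁ z‖ * ‖g₂ z‖ :=
          mul_le_mul_of_nonneg_right (E₁.2.2 z hz hz1) (norm_nonneg _)
      _ = ‖g₁ z‖ * (KF c * ‖g₂ z‖) := by ring
  have dQ : ∀ z : ℂ, c ≤ ‖z‖ → ‖z‖ < 1 → ‖Q z‖ ≤ KF c * ‖g₁ z‖ := by
    refine cancel_dom h0 hg₂ hn₂ hQ.continuousOn hg₁.continuousOn fun z hz hz1 => ?_
    rw [← norm_mul, ← hQe' z (mem_ball_zero_iff.2 hz1), norm_mul]
    calc ‖f z‖ * ‖g₁ z‖ ≤ KF c * ‖g₂ z‖ * ‖g₁ z‖ :=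
          mul_le_mul_of_nonneg_right (E₂.2.2 z hz hz1) (norm_nonneg _)
      _ = ‖g₂ z‖ * (KF c * ‖g₁ z‖) := by ring
  obtain ⟨iP, sP⟩ := sq_le_one_of_dom h0 h1 hP E₂.2.1 dP
  obtain ⟨iQ, sQ⟩ := sq_le_one_of_dom h0 h1 hQ E₁.2.1 dQ
  -- P Q = f ^ 2
  have hPQ : ∀ z ∈ ball (0 : ℂ) 1, P z * Q z = f z ^ 2 := by
    intro z hz
    have hev : ∀ᶠ y in 𝓝[≠] z, P y * Q y = f y ^ 2 := by
      filter_upwards [ne_near hg₁ hn₁ hz, ne_near hg₂ hn₂ hz,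
        nhdsWithin_le_nhds (isOpen_ball.mem_nhds hz)] with y hy1 hy2 hy3
      have h2 := hPe' y hy3
      have h3 := hQe' y hy3
      refine mul_left_cancel₀ (mul_ne_zero hy1 hy2) ?_
      calc g₁ y * g₂ y * (P y * Q y) = (g₁ y * P y) * (g₂ y * Q y) := by ring
        _ = (f y * g₂ y) * (f y * g₁ y) := by rw [h2, h3]
        _ = g₁ y * g₂ y * f y ^ 2 := by ring
    have hc1 : Tendsto (fun y => P y * Q y) (𝓝[≠] z) (𝓝 (P z * Q z)) :=
      (((hP.continuousOn.continuousAt (isOpen_ball.mem_nhds hz)).mul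
        (hQ.continuousOn.continuousAt (isOpen_ball.mem_nhds hz))).tendsto).mono_left
        nhdsWithin_le_nhds
    have hc2 : Tendsto (fun y => f y ^ 2) (𝓝[≠] z) (𝓝 (f z ^ 2)) :=
      (((hf.continuousOn.continuousAt (isOpen_ball.mem_nhds hz)).pow 2).tendsto).mono_left
        nhdsWithin_le_nhds
    exact tendsto_nhds_unique_of_eventuallyEq hc1 hc2 hev
  -- the integral of (|P| - |Q|) ^ 2 vanishes
  have hcont : ContinuousOn (fun z => (‖P z‖ - ‖Q z‖) ^ 2) (ball (0 : ℂ) 1) :=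
    (hP.continuousOn.norm.sub hQ.continuousOn.norm).pow 2
  have hEq : ∀ z ∈ ball (0 : ℂ) 1,
      (‖P z‖ - ‖Q z‖) ^ 2 = ‖P z‖ ^ 2 + ‖Q z‖ ^ 2 - 2 * ‖f z‖ ^ 2 := by
    intro z hz
    have h2 := congrArg norm (hPQ z hz)
    rw [norm_mul, norm_pow] at h2
    rw [← h2]
    ring
  have hI : IntegrableOn (fun z => ‖P z‖ ^ 2 + ‖Q z‖ ^ 2 - 2 * ‖f z‖ ^ 2) (ball (0 : ℂ) 1) :=
    (iP.add iQ).sub (E₁.1.2.1.const_mul 2)
  have hI' : IntegrableOn (fun z => (‖P z‖ - ‖Q z‖) ^ 2) (ball (0 : ℂ) 1) :=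
    hI.congr_fun (fun z hz => (hEq z hz).symm) measurableSet_ball
  have hint : ∫ z in ball (0 : ℂ) 1, (‖P z‖ - ‖Q z‖) ^ 2 ≤ 0 := by
    have i1 : IntegrableOn (fun z => ‖P z‖ ^ 2 + ‖Q z‖ ^ 2) (ball (0 : ℂ) 1) := iP.add iQ
    have i2 : IntegrableOn (fun z => 2 * ‖f z‖ ^ 2) (ball (0 : ℂ) 1) := E₁.1.2.1.const_mul 2
    rw [setIntegral_congr_fun measurableSet_ball hEq, integral_sub i1 i2, integral_add iP iQ,
      integral_const_mul]
    have h2 : Real.pi⁻¹ * ∫ z in ball (0 : ℂ) 1, ‖P z‖ ^ 2 ≤ 1 := sP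
    have h3 : Real.pi⁻¹ * ∫ z in ball (0 : ℂ) 1, ‖Q z‖ ^ 2 ≤ 1 := sQ
    have h4 : Real.pi⁻¹ * ∫ z in ball (0 : ℂ) 1, ‖f z‖ ^ 2 = 1 := E₁.1.2.2
    have h5 : 0 < Real.pi⁻¹ := by positivity
    refine nonpos_of_mul_nonpos_right (?_ : Real.pi⁻¹ * _ ≤ 0) h5
    rw [mul_sub, mul_add, ← mul_assoc, mul_comm Real.pi⁻¹ 2, mul_assoc, h4]
    linarith
  have hzero : ∫ z in ball (0 : ℂ) 1, (‖P z‖ - ‖Q z‖) ^ 2 = 0 :=
    le_antisymm hint (integral_nonneg fun z => sq_nonneg _)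
  have hae := (integral_eq_zero_iff_of_nonneg (fun z => sq_nonneg _) hI').1 hzero
  have hEqOn : EqOn (fun z => (‖P z‖ - ‖Q z‖) ^ 2) (fun _ => (0 : ℝ)) (ball (0 : ℂ) 1) :=
    Measure.eqOn_open_of_ae_eq hae isOpen_ball hcont continuousOn_const
  have hPf : ∀ z ∈ ball (0 : ℂ) 1, ‖P z‖ = ‖f z‖ := by
    intro z hz
    have h2 : (‖P z‖ - ‖Q z‖) ^ 2 = 0 := hEqOn hz
    have h3 : ‖P z‖ = ‖Q z‖ := sub_eq_zero.1 (pow_eq_zero_iff two_ne_zero |>.1 h2)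
    have h4 := congrArg norm (hPQ z hz)
    rw [norm_mul, norm_pow, ← h3, ← _root_.sq] at h4
    exact (pow_left_inj₀ (norm_nonneg _) (norm_nonneg _) two_ne_zero).1 h4
  -- a point where f and g₁ do not vanish
  obtain ⟨z₁, hz₁, hfz₁⟩ := hnf
  have hbn : ∀ᶠ y in 𝓝[≠] z₁, y ∈ ball (0 : ℂ) 1 :=
    nhdsWithin_le_nhds (isOpen_ball.mem_nhds hz₁)
  obtain ⟨z₀, ⟨hf0, hg0⟩, hz₀⟩ :=
    (((ne_near hf ⟨z₁, hz₁, hfz₁⟩ hz₁).and (ne_near hg₁ hn₁ hz₁)).and hbn).exists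
  refine const_of_norm hg₁ hg₂ hz₀ hg0 ?_
  filter_upwards [isOpen_ball.mem_nhds hz₀, (hfa z₀ hz₀).continuousAt.eventually_ne hf0]
    with z hz hfz
  have h2 := congrArg norm (hPe' z hz)
  rw [norm_mul, norm_mul, hPf z hz] at h2
  have h3 : ‖f z‖ ≠ 0 := norm_ne_zero_iff.2 hfz
  exact mul_left_cancel₀ h3 (by rw [h2, mul_comm])

end Pool.Agent.Helper23.KU
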