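import Pool.Agent.Helper23.KR.VarNorm
import Pool.Agent.Helper33.KU.Split
import Pool.Agent.Helper53.KR.Var
import Pool.Agent.Helper53.KU.Unimod
import Pool.Agent.Helper82.KR.Second
import Pool.Agent.Helper75.KR.ConjConst

/-!
# KR: the quotient of an extremal pair is rational
-/

set_option autoImplicit false

namespace Pool.Agent.Helper23.KU

open Polynomial Filter Topology Metric MeasureTheory Set
open Pool.Agent.Helper23.KB (Sph Dom KF Ext sq area_series ms_series kf_le kf_dn kf_nonneg int_cont)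

/-- the polynomial with the value `mm s z` -/
noncomputable def mmP (s : Multiset ℂ) : ℂ[X] := (s.map fun a => (X - C a : ℂ[X])).prod

noncomputable def mrP (s : Multiset ℂ) : ℂ[X] :=
  (s.map fun a => (1 - C ((starRingEnd ℂ) a) * X : ℂ[X])).prod

theorem mmP_eval (s : Multiset ℂ) (z : ℂ) : (mmP s).eval z = mm s z := eval_prod_sub s z

theorem mrP_eval (s : Multiset ℂ) (z : ℂ) : (mrP s).eval z = mr s z := eval_prod_rev s z

theorem mmP_ne (s : Multiset ℂ) : mmP s ≠ 0 := by
  unfold mmP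
  rw [Ne, Multiset.prod_eq_zero_iff, Multiset.mem_map]
  rintro ⟨a, _, h2⟩
  exact X_sub_C_ne_zero a h2

theorem bdd_of_cont {u : ℂ → ℂ} (hu : Continuous u) :
    ∃ M : ℝ, ∀ z ∈ ball (0 : ℂ) 1, ‖u z‖ ≤ M := by
  obtain ⟨M, hM⟩ := (isCompact_closedBall (0 : ℂ) 1).exists_bound_of_continuousOn hu.continuousOn
  exact ⟨M, fun z hz => hM z (ball_subset_closedBall hz)⟩

/-- products with bounded functions are square integrable -/
theorem int_bdd {f b : ℂ → ℂ} (hf : ContinuousOn f (ball 0 1)) (hb : ContinuousOn b (ball 0 1))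
    (hfi : IntegrableOn (fun z => ‖f z‖ ^ 2) (ball 0 1)) {M : ℝ}
    (hb1 : ∀ z ∈ ball (0 : ℂ) 1, ‖b z‖ ≤ M) :
    IntegrableOn (fun z => ‖b z * f z‖ ^ 2) (ball 0 1) := by
  refine Integrable.mono' (hfi.const_mul (M ^ 2)) ?_ ?_
  · exact ContinuousOn.aestronglyMeasurable ((hb.mul hf).norm.pow 2) measurableSet_ball
  · refine (ae_restrict_iff' measurableSet_ball).2 (Eventually.of_forall fun z hz => ?_)
    rw [Real.norm_eq_abs, abs_of_nonneg (by positivity), norm_mul, mul_pow]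
    have h1 : ‖b z‖ ^ 2 ≤ M ^ 2 := pow_le_pow_left₀ (norm_nonneg _) (hb1 z hz) 2
    exact mul_le_mul_of_nonneg_right h1 (by positivity)

/-- **The quotient of an extremal pair is rational.** -/
theorem rat_all {c : ℝ} (h0 : 0 < c) (h1 : c < 1) {f g : ℂ → ℂ} (h : Ext c f g) :
    ∃ p q : ℂ[X], q ≠ 0 ∧ ∀ z ∈ ball (0 : ℂ) 1, q.eval z * f z = p.eval z * g z := by
  obtain ⟨s, v, N, hs, hv, hN, hvi, hg, hf, hN1, hN2⟩ := split_ext h0 h1 h
  have hs1 : ∀ a ∈ s, ‖a‖ < 1 := fun a ha => (hs a ha).trans h1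
  have hmr : ∀ z ∈ ball (0 : ℂ) 1, mr s z ≠ 0 := fun z hz =>
    rev_ne hs1 (mem_ball_zero_iff.1 hz).le
  have hcb : ∀ z : ℂ, ‖z‖ = c → z ∈ ball (0 : ℂ) 1 := fun z hz => by
    rw [mem_ball_zero_iff, hz]
    exact h1
  by_cases hfull : ∀ z : ℂ, ‖z‖ = c → ‖N z‖ = ‖mm s z‖
  · obtain ⟨p, q, hq, hpq⟩ := rat_full h0 h1 hs hN hfull
    refine ⟨C (KF c : ℂ) * p, q * mmP s, mul_ne_zero hq (mmP_ne s), fun z hz => ?_⟩
    rw [eval_mul, eval_mul, eval_C, mmP_eval, hf z hz, hg z hz]
    linear_combination ((KF c : ℂ) * v z * mm s z) * hpq z hz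
  · push Not at hfull
    obtain ⟨z₀, hz₀, hne₀⟩ := hfull
    -- the contact function
    obtain ⟨k, hkdef⟩ : ∃ k : ℂ → ℂ, k = fun z => mm s z * Helper53.KU.refl c (mm s) z -
      N z * Helper53.KU.refl c N z := ⟨_, rfl⟩
    have hkv : ∀ z : ℂ, ‖z‖ = c → k z = ((‖mm s z‖ ^ 2 - ‖N z‖ ^ 2 : ℝ) : ℂ) := by
      intro z hz
      rw [hkdef]
      simp only
      rw [Helper53.KU.refl_eq h0 hz, Helper53.KU.refl_eq h0 hz, Complex.mul_conj,
        Complex.mul_conj, Complex.normSq_eq_norm_sq, Complex.normSq_eq_norm_sq]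
      push_cast
      ring
    have hk1 : ∀ z : ℂ, ‖z‖ = c → ‖k z‖ = ‖mm s z‖ ^ 2 - ‖N z‖ ^ 2 := by
      intro z hz
      rw [hkv z hz, Complex.norm_real, Real.norm_eq_abs, abs_of_nonneg]
      have h2 := hN1 z hz.ge (by rw [hz]; exact h1)
      have h3 := pow_le_pow_left₀ (norm_nonneg _) h2 2
      linarith
    have hkan : AnalyticOnNhd ℂ k (sphere (0 : ℂ) c) := by
      rw [hkdef]
      intro z hz
      have hz' : ‖z‖ = c := mem_sphere_zero_iff_norm.1 hz
      refine AnalyticAt.sub (AnalyticAt.mul ?_ ?_) (AnalyticAt.mul ?_ ?_)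
      · exact (mm_diff s).analyticAt z
      · exact Helper53.KU.refl_analytic h0 isOpen_ball hcb (mm_diff s).differentiableOn z hz
      · exact hN.analyticAt (isOpen_ball.mem_nhds (hcb z hz'))
      · exact Helper53.KU.refl_analytic h0 isOpen_ball hcb hN z hz
    have hkne : ∃ z ∈ sphere (0 : ℂ) c, k z ≠ 0 := by
      refine ⟨z₀, mem_sphere_zero_iff_norm.2 hz₀, fun h2 => hne₀ ?_⟩
      have h3 := hk1 z₀ hz₀
      rw [h2, norm_zero] at h3
      have h4 : ‖N z₀‖ ^ 2 = ‖mm s z₀‖ ^ 2 := by linarith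
      exact (pow_left_inj₀ (norm_nonneg _) (norm_nonneg _) two_ne_zero).1 h4
    obtain ⟨I, hIdef⟩ : ∃ I : ℂ → ℂ, I = fun z => N z / mr s z := ⟨_, rfl⟩
    have hId : DifferentiableOn ℂ I (ball 0 1) := by
      rw [hIdef]
      exact hN.div (mr_diff s).differentiableOn hmr
    have hIz : ∀ z, I z = N z / mr s z := fun z => by rw [hIdef]
    have hI1 : ∀ z ∈ ball (0 : ℂ) 1, ‖I z‖ ≤ 1 := by
      intro z hz
      rw [hIz, norm_div]
      exact div_le_one_of_le₀ (hN2 z hz) (norm_nonneg _)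
    obtain ⟨n, p, q, y, C', hp0, hpn, hqn, hyd, hy, hky, hku⟩ := var_exists h0 h1 hkan hkne hId
    obtain ⟨t₀, ht₀, hvn⟩ := var_norm h0 h1 h hs hv hN hvi hg hf hN1 hN2
      hkan.continuousOn hk1 hpn hqn hyd (fun z hz => by rw [← hIz]; exact hy z hz) hky
      (fun z hz => by rw [← hIz]; exact hku z hz)
    -- the functions of the second order argument
    obtain ⟨x, hxdef⟩ : ∃ x : ℂ → ℂ, x = fun z => (rv n p).eval z - (rv n q).eval z * I z :=
      ⟨_, rfl⟩
    have hxz : ∀ z, x z = (rv n p).eval z - (rv n q).eval z * I z := fun z => by rw [hxdef]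
    have hxd : DifferentiableOn ℂ x (ball 0 1) := by
      rw [hxdef]
      exact (Polynomial.differentiable _).differentiableOn.sub
        ((Polynomial.differentiable _).differentiableOn.mul hId)
    obtain ⟨My, hMy⟩ := y_bdd hI1 hyd hy
    obtain ⟨M1, hM1⟩ := bdd_of_cont (u := fun z => (rv n p).eval z)
      (Polynomial.differentiable _).continuous
    obtain ⟨M2, hM2⟩ := bdd_of_cont (u := fun z => (rv n q).eval z)
      (Polynomial.differentiable _).continuous
    have hMx : ∀ z ∈ ball (0 : ℂ) 1, ‖x z‖ ≤ M1 + M2 := by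
      intro z hz
      rw [hxz]
      refine (norm_sub_le _ _).trans (add_le_add (hM1 z hz) ?_)
      rw [norm_mul]
      have h2 := mul_le_mul (hM2 z hz) (hI1 z hz) (norm_nonneg _)
        ((norm_nonneg _).trans (hM2 z hz))
      linarith
    obtain ⟨G, hGdef⟩ : ∃ G : ℂ → ℂ, G = fun z => (KF c : ℂ) * v z * mr s z := ⟨_, rfl⟩
    have hGz : ∀ z, G z = (KF c : ℂ) * v z * mr s z := fun z => by rw [hGdef]
    have hGd : DifferentiableOn ℂ G (ball 0 1) := by
      rw [hGdef]
      exact (hv.const_mul _).mul (mr_diff s).differentiableOn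
    have hGI : ∀ z ∈ ball (0 : ℂ) 1, G z * I z = f z := by
      intro z hz
      rw [hGz, hIz, hf z hz]
      have := hmr z hz
      field_simp
    obtain ⟨zf, hzf, hzf0⟩ := sph_ne h.1
    have hGi : IntegrableOn (fun z => ‖G z‖ ^ 2) (ball 0 1) := by
      obtain ⟨M3, hM3⟩ := bdd_of_cont (u := fun z => (KF c : ℂ) * mr s z)
        (continuous_const.mul (mr_diff s).continuous)
      have h2 := int_bdd hv.continuousOn (b := fun z => (KF c : ℂ) * mr s z)
        (continuous_const.mul (mr_diff s).continuous).continuousOn hvi hM3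
      have h3 : (fun z => ‖G z‖ ^ 2) = fun z => ‖(KF c : ℂ) * mr s z * v z‖ ^ 2 := by
        funext z
        rw [hGz]
        congr 2
        ring
      rw [h3]
      exact h2
    have hG0 : ∃ z ∈ ball (0 : ℂ) 1, G z ≠ 0 :=
      ⟨zf, hzf, fun h2 => hzf0 (by rw [← hGI zf hzf, h2, zero_mul])⟩
    have hI0 : ∃ z ∈ ball (0 : ℂ) 1, I z ≠ 0 :=
      ⟨zf, hzf, fun h2 => hzf0 (by rw [← hGI zf hzf, h2, mul_zero])⟩
    have hone : sq (fun z => G z * I z) 1 = 1 := by
      rw [sq_congr hGI]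
      exact h.1.2.2
    have hso := second_order hGd hGi hG0 hId hxd hyd hI1
      (fun z hz => (hMx z hz).trans (le_max_left (M1 + M2) My))
      (fun z hz => (hMy z hz).trans (le_max_right (M1 + M2) My)) hone ht₀ (fun τ hτ => by
        have h2 := hvn τ hτ
        have h3 : (fun z => G z * (I z - τ * x z) / (1 - (starRingEnd ℂ) τ * y z)) =
            fun z => (KF c : ℂ) * v z * mr s z * (N z / mr s z -
              τ * ((rv n p).eval z - (rv n q).eval z * (N z / mr s z))) /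
                (1 - (starRingEnd ℂ) τ * y z) := by
          funext z
          rw [hGz, hxz, hIz]
        rw [h3]
        exact h2)
    obtain ⟨κ, hκ⟩ := conj_const hId hI0 hxd hyd hso
    refine ⟨C (KF c : ℂ) * (mrP s * (q + C κ * X ^ n)), p * mmP s,
      mul_ne_zero hp0 (mmP_ne s), fun z hz => ?_⟩
    have h2 := hy z hz
    rw [hκ z hz, hIz] at h2
    have h3 := hmr z hz
    have h4 : p.eval z * N z = mr s z * (q.eval z + κ * z ^ n) := by
      field_simp at h2
      linear_combination -h2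
    rw [eval_mul, eval_mul, eval_mul, eval_add, eval_mul, eval_C, eval_C, eval_pow, eval_X,
      mmP_eval, mrP_eval, hf z hz, hg z hz]
    linear_combination ((KF c : ℂ) * v z * mm s z) * h4

end Pool.Agent.Helper23.KU
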